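import Pool.Agent.K3h55.LT.Stm

/-!
# Lipschitz functions on trees: the normalised recursion and its energy
-/

set_option autoImplicit false

open Filter Topology

namespace Pool.Agent.K3h55.LT

/-- The three point sum. -/
def A3 (q : ℤ → ℝ) (k : ℤ) : ℝ := q (k - 1) + q k + q (k + 1)

structure Good (u : ℤ → ℝ) : Prop where
  nonneg : ∀ k, 0 ≤ u k
  fin : (Function.support u).Finite
  pos : ∃ k, 0 < u k

variable {u v : ℤ → ℝ}

lemma Good.pow (h : Good u) {e : ℕ} (he : e ≠ 0) : Good fun k => u k ^ e := by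
  refine ⟨fun k => pow_nonneg (h.nonneg k) e, h.fin.subset ?_, ?_⟩
  · intro k hk hk0
    exact hk (by show u k ^ e = 0; rw [hk0, zero_pow he])
  · obtain ⟨k, hk⟩ := h.pos
    exact ⟨k, pow_pos hk e⟩

lemma Good.summable (h : Good u) : Summable u := summable_of_hasFiniteSupport h.fin

lemma Good.div (h : Good u) {s : ℝ} (hs : 0 < s) : Good fun k => u k / s := by
  refine ⟨fun k => div_nonneg (h.nonneg k) hs.le, h.fin.subset ?_, ?_⟩
  · intro k hk hk0
    exact hk (by show u k / s = 0; rw [hk0, zero_div])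
  · obtain ⟨k, hk⟩ := h.pos
    exact ⟨k, div_pos hk hs⟩

lemma fin_A3 (h : (Function.support u).Finite) : (Function.support (A3 u)).Finite := by
  refine ((h.image (fun k => k + 1)).union (h.union (h.image (fun k => k - 1)))).subset ?_
  intro k hk
  by_contra hc
  rw [Set.mem_union, Set.mem_union, not_or, not_or] at hc
  obtain ⟨h1, h2, h3⟩ := hc
  apply hk
  have e1 : u (k - 1) = 0 := by
    by_contra h0
    exact h1 ⟨k - 1, h0, by ring⟩
  have e2 : u k = 0 := by
    by_contra h0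
    exact h2 h0
  have e3 : u (k + 1) = 0 := by
    by_contra h0
    exact h3 ⟨k + 1, h0, by ring⟩
  rw [A3, e1, e2, e3]
  ring

lemma Good.A3 (h : Good u) : Good (A3 u) := by
  refine ⟨fun k => ?_, fin_A3 h.fin, ?_⟩
  · have h1 := h.nonneg (k - 1)
    have h2 := h.nonneg k
    have h3 := h.nonneg (k + 1)
    unfold LT.A3
    linarith
  · obtain ⟨k, hk⟩ := h.pos
    refine ⟨k, ?_⟩
    have h1 := h.nonneg (k - 1)
    have h3 := h.nonneg (k + 1)
    unfold LT.A3
    linarith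

lemma sum_A3 (hu : (Function.support u).Finite) (hv : (Function.support v).Finite) :
    ∑' k, v k * A3 u k = ∑' k, u k * A3 v k := by
  have sv : ∀ w : ℤ → ℝ, Summable fun k => v k * w k := fun w => summable_of_hasFiniteSupport
    (hv.subset fun k hk hk0 => hk (by show v k * w k = 0; rw [hk0, zero_mul]))
  have su : ∀ w : ℤ → ℝ, Summable fun k => u k * w k := fun w => summable_of_hasFiniteSupport
    (hu.subset fun k hk hk0 => hk (by show u k * w k = 0; rw [hk0, zero_mul]))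
  have e1 : ∑' k, v k * A3 u k = ∑' k, v k * u (k - 1) + ∑' k, v k * u k + ∑' k, v k * u (k + 1) := by
    rw [← (sv fun k => u (k - 1)).tsum_add (sv u), ← ((sv fun k => u (k - 1)).add (sv u)).tsum_add
      (sv fun k => u (k + 1))]
    refine tsum_congr fun k => ?_
    rw [A3]
    ring
  have e2 : ∑' k, u k * A3 v k = ∑' k, u k * v (k - 1) + ∑' k, u k * v k + ∑' k, u k * v (k + 1) := by
    rw [← (su fun k => v (k - 1)).tsum_add (su v), ← ((su fun k => v (k - 1)).add (su v)).tsum_add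
      (su fun k => v (k + 1))]
    refine tsum_congr fun k => ?_
    rw [A3]
    ring
  have e3 : ∑' k, v k * u (k - 1) = ∑' k, u k * v (k + 1) := by
    rw [← (Equiv.addRight (1 : ℤ)).tsum_eq (fun k => v k * u (k - 1))]
    refine tsum_congr fun k => ?_
    simp only [Equiv.coe_addRight, add_sub_cancel_right]
    ring
  have e4 : ∑' k, u k * v (k - 1) = ∑' k, v k * u (k + 1) := by
    rw [← (Equiv.addRight (1 : ℤ)).tsum_eq (fun k => u k * v (k - 1))]
    refine tsum_congr fun k => ?_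
    simp only [Equiv.coe_addRight, add_sub_cancel_right]
    ring
  have e5 : ∑' k, v k * u k = ∑' k, u k * v k := tsum_congr fun k => mul_comm _ _
  rw [e1, e2, e3, e4, e5]
  ring

lemma tsum_A3 (hu : (Function.support u).Finite) : ∑' k, A3 u k = 3 * ∑' k, u k := by
  have su : Summable u := summable_of_hasFiniteSupport hu
  have s1 : Summable fun k => u (k - 1) := (Equiv.subRight (1 : ℤ)).summable_iff.2 su
  have s2 : Summable fun k => u (k + 1) := (Equiv.addRight (1 : ℤ)).summable_iff.2 su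
  have e1 : ∑' k, u (k - 1) = ∑' k, u k := (Equiv.subRight (1 : ℤ)).tsum_eq u
  have e2 : ∑' k, u (k + 1) = ∑' k, u k := (Equiv.addRight (1 : ℤ)).tsum_eq u
  have e3 : ∑' k, A3 u k = ∑' k, u (k - 1) + ∑' k, u k + ∑' k, u (k + 1) := by
    rw [← s1.tsum_add su, ← (s1.add su).tsum_add s2]
    rfl
  rw [e3, e1, e2]
  ring

/-- The norm. -/
noncomputable def nrm (d : ℕ) (v : ℤ → ℝ) : ℝ := (∑' k, v k ^ (d + 1)) ^ (((d + 1 : ℕ) : ℝ)⁻¹)

lemma Good.tsum_pos (h : Good v) : 0 < ∑' k, v k := by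
  obtain ⟨k, hk⟩ := h.pos
  exact h.summable.tsum_pos h.nonneg k hk

lemma nrm_pos {d : ℕ} (h : Good v) : 0 < nrm d v :=
  Real.rpow_pos_of_pos (h.pow (Nat.succ_ne_zero d)).tsum_pos _

lemma nrm_pow {d : ℕ} (h : Good v) : nrm d v ^ (d + 1) = ∑' k, v k ^ (d + 1) :=
  Real.rpow_inv_natCast_pow (h.pow (Nat.succ_ne_zero d)).tsum_pos.le (Nat.succ_ne_zero d)

/-- The normalised function. -/
noncomputable def nz (d : ℕ) (v : ℤ → ℝ) : ℤ → ℝ := fun k => v k / nrm d v

lemma nz_good {d : ℕ} (h : Good v) : Good (nz d v) := h.div (nrm_pos h)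

lemma nz_sum {d : ℕ} (h : Good v) : ∑' k, nz d v k ^ (d + 1) = 1 := by
  unfold nz
  simp only [div_pow]
  rw [tsum_div_const, nrm_pow h]
  exact div_self (h.pow (Nat.succ_ne_zero d)).tsum_pos.ne'

/-- The normalised sequence. -/
noncomputable def U (d : ℕ) (c : ℤ → ℝ) : ℕ → ℤ → ℝ
  | 0 => nz d (A3 c)
  | n + 1 => nz d (A3 fun k => U d c n k ^ d)

/-- The normalising factors. -/
noncomputable def be (d : ℕ) (c : ℤ → ℝ) (n : ℕ) : ℝ := nrm d (A3 fun k => U d c n k ^ d)

section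

variable {d : ℕ} {c : ℤ → ℝ} (hd : d ≠ 0) (hc : Good c)

include hd hc

lemma U_good (n : ℕ) : Good (U d c n) := by
  induction n with
  | zero => exact nz_good hc.A3
  | succ n ih => exact nz_good (ih.pow hd).A3

lemma UA_good (n : ℕ) : Good (A3 fun k => U d c n k ^ d) := ((U_good hd hc n).pow hd).A3

lemma U_sum (n : ℕ) : ∑' k, U d c n k ^ (d + 1) = 1 := by
  cases n with
  | zero => exact nz_sum hc.A3
  | succ n => exact nz_sum (UA_good hd hc n)

lemma be_pos (n : ℕ) : 0 < be d c n := nrm_pos (UA_good hd hc n)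

lemma U_rec (n : ℕ) (k : ℤ) : A3 (fun k => U d c n k ^ d) k = be d c n * U d c (n + 1) k := by
  show _ = be d c n * ((A3 fun k => U d c n k ^ d) k / be d c n)
  rw [mul_div_cancel₀ _ (be_pos hd hc n).ne']

lemma U_le_one (n : ℕ) (k : ℤ) : U d c n k ≤ 1 := by
  have h := U_good hd hc n
  have h1 : U d c n k ^ (d + 1) ≤ ∑' k, U d c n k ^ (d + 1) :=
    (h.pow (Nat.succ_ne_zero d)).summable.le_tsum k fun j _ => pow_nonneg (h.nonneg j) _
  rw [U_sum hd hc] at h1
  exact (pow_le_one_iff_of_nonneg (h.nonneg k) (Nat.succ_ne_zero d)).1 h1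

lemma be_eq (n : ℕ) : be d c n = ∑' k, U d c (n + 1) k ^ d * A3 (fun k => U d c n k ^ d) k := by
  have h1 : ∀ k, U d c (n + 1) k ^ d * A3 (fun k => U d c n k ^ d) k =
      be d c n * U d c (n + 1) k ^ (d + 1) := by
    intro k
    rw [U_rec hd hc]
    ring
  simp only [h1]
  rw [tsum_mul_left, U_sum hd hc, mul_one]

lemma be_eq2 (n : ℕ) : be d c n = be d c (n + 1) * ∑' k, U d c n k ^ d * U d c (n + 2) k := by
  rw [be_eq hd hc, sum_A3 ((U_good hd hc n).pow hd).fin ((U_good hd hc (n + 1)).pow hd).fin,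
    ← tsum_mul_left]
  refine tsum_congr fun k => ?_
  rw [U_rec hd hc]
  ring

end

lemma young {d : ℕ} (hd : d ≠ 0) {a b : ℝ} (ha : 0 ≤ a) (hb : 0 ≤ b) :
    |a - b| ^ (d + 1) ≤ a ^ (d + 1) + d * b ^ (d + 1) - (d + 1) * (b ^ d * a) := by
  rcases le_total b a with h | h
  · obtain ⟨t, ht, rfl⟩ : ∃ t, 0 ≤ t ∧ a = b + t := ⟨a - b, sub_nonneg.2 h, by ring⟩
    rw [show b + t - b = t by ring, abs_of_nonneg ht]
    have key : ∀ e : ℕ, e ≠ 0 → b ^ (e + 1) + (e + 1) * (b ^ e * t) + t ^ (e + 1) ≤ (b + t) ^ (e + 1) := by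
      intro e he
      obtain ⟨e, rfl⟩ : ∃ e', e = e' + 1 := ⟨e - 1, by omega⟩
      clear he
      induction e with
      | zero =>
        norm_num
        nlinarith
      | succ e ih =>
        have h1 := mul_le_mul_of_nonneg_left ih (add_nonneg hb ht)
        have e1 : (b + t) * (b + t) ^ (e + 1 + 1) = (b + t) ^ (e + 1 + 1 + 1) := by ring
        rw [e1] at h1
        refine le_trans ?_ h1
        have q1 : 0 ≤ b ^ (e + 1) * t ^ 2 := by positivity
        have q2 : 0 ≤ b * t ^ (e + 2) := by positivity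
        have q3 : (0 : ℝ) ≤ e := Nat.cast_nonneg e
        have q4 := mul_nonneg q3 q1
        push_cast
        have e2 : (b + t) * (b ^ (e + 1 + 1) + ((e : ℝ) + 1 + 1) * (b ^ (e + 1) * t) + t ^ (e + 1 + 1)) =
            b ^ (e + 1 + 1 + 1) + ((e : ℝ) + 1 + 1 + 1) * (b ^ (e + 1 + 1) * t) + t ^ (e + 1 + 1 + 1) +
              (2 * (b ^ (e + 1) * t ^ 2) + e * (b ^ (e + 1) * t ^ 2) + b * t ^ (e + 2)) := by ring
        rw [e2]
        linarith
    have h2 := key d hd
    have e2 : (b : ℝ) ^ d * (b + t) = b ^ (d + 1) + b ^ d * t := by ring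
    rw [e2]
    nlinarith
  · obtain ⟨t, ht, rfl⟩ : ∃ t, 0 ≤ t ∧ b = a + t := ⟨b - a, sub_nonneg.2 h, by ring⟩
    rw [show a - (a + t) = -t by ring, abs_neg, abs_of_nonneg ht]
    -- `b ^ e - a ^ e ≤ e t b ^ (e - 1)`
    have key : ∀ e : ℕ, (a + t) ^ (e + 1) - a ^ (e + 1) ≤ (e + 1) * (t * (a + t) ^ e) := by
      intro e
      induction e with
      | zero => norm_num
      | succ e ih =>
        have h1 := mul_le_mul_of_nonneg_left ih (add_nonneg ha ht)
        have q1 : a ^ (e + 1) ≤ (a + t) ^ (e + 1) := pow_le_pow_left₀ ha (by linarith) _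
        have q2 := mul_le_mul_of_nonneg_left q1 ht
        push_cast
        have e1 : (a + t) ^ (e + 1 + 1) - a ^ (e + 1 + 1) =
          (a + t) * ((a + t) ^ (e + 1) - a ^ (e + 1)) + t * a ^ (e + 1) := by ring
        have e2 : (a + t) * ((e + 1) * (t * (a + t) ^ e)) = (e + 1) * (t * (a + t) ^ (e + 1)) := by ring
        rw [e1]
        rw [e2] at h1
        linarith
    obtain ⟨e, rfl⟩ : ∃ e', d = e' + 1 := ⟨d - 1, by omega⟩
    have h2 := mul_le_mul_of_nonneg_left (key e) ha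
    have h3 : t ^ e ≤ (a + t) ^ e := pow_le_pow_left₀ ht (by linarith) e
    have h4 : t ^ 2 * t ^ e ≤ t ^ 2 * (a + t) ^ e := mul_le_mul_of_nonneg_left h3 (sq_nonneg t)
    have h5 : 0 ≤ t ^ 2 * (a + t) ^ e := by positivity
    have h6 : (0 : ℝ) ≤ e := Nat.cast_nonneg e
    have h7 := mul_nonneg h6 h5
    have e3 : a ^ (e + 1 + 1) + ((e + 1 : ℕ) : ℝ) * (a + t) ^ (e + 1 + 1) -
        (((e + 1 : ℕ) : ℝ) + 1) * ((a + t) ^ (e + 1) * a) =
        ((e : ℝ) + 1) * (t * (a + t) ^ (e + 1)) - a * ((a + t) ^ (e + 1) - a ^ (e + 1)) := by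
      push_cast
      ring
    have e4 : ((e : ℝ) + 1) * (t * (a + t) ^ (e + 1)) - a * (((e : ℝ) + 1) * (t * (a + t) ^ e)) =
        ((e : ℝ) + 1) * (t ^ 2 * (a + t) ^ e) := by ring
    have e5 : t ^ (e + 1 + 1) = t ^ 2 * t ^ e := by ring
    rw [e3, e5]
    linarith

end Pool.Agent.K3h55.LT
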