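import Pool.Agent.K3h68.LT.Cnt1

/-! LT brick CNT2 for helper2: the number of extensions of a function (helper55) -/

set_option autoImplicit false

open Filter Topology

namespace Pool.Agent.K3h55.LT2

open Pool.Agent.K3h2.LT Pool.Agent.K3h68.LT

/-- decomposition at the root -/
def dec2 {d r n : ℕ} (S : Finset ℤ) (h : r ≤ n) (g : V d (r + 1) → ℤ)
    (hL : ∀ i, |sub g i ⟨[], Nat.zero_le r⟩ - g ⟨[], Nat.zero_le (r + 1)⟩| ≤ 1) :
    {f : V d (n + 1) → ℤ // f ∈ {f ∈ Lip d (n + 1) S | res d (Nat.succ_le_succ h) f = g}} ≃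
      (∀ i, {f : V d n → ℤ // f ∈ {f ∈ Lip d n S | res d h f = sub g i}}) where
  toFun f i := ⟨sub f.1 i, ((lip_succ S f.1).1 f.2.1).2 i, by
    have h1 : res d h (sub f.1 i) = sub (res d (Nat.succ_le_succ h) f.1) i := rfl
    rw [h1, f.2.2]⟩
  invFun gs := ⟨glue (g ⟨[], Nat.zero_le _⟩) fun i => (gs i).1, (lip_succ S _).2
    ⟨fun i => by
      have h1 := congrFun (gs i).2.2 ⟨[], Nat.zero_le r⟩
      have h2 : (gs i).1 ⟨[], Nat.zero_le n⟩ = sub g i ⟨[], Nat.zero_le r⟩ := h1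
      have h3 := hL i
      rw [← h2] at h3
      exact h3, fun i => (gs i).2.1⟩, by
    funext ⟨w, hw⟩
    rcases w with _ | ⟨i, w⟩
    · rfl
    · exact congrFun (gs i).2.2 ⟨w, by simpa using hw⟩⟩
  left_inv f := by
    apply Subtype.ext
    have h1 := glue_sub f.1
    have h2 : f.1 ⟨[], Nat.zero_le _⟩ = g ⟨[], Nat.zero_le _⟩ :=
      congrFun f.2.2 ⟨[], Nat.zero_le _⟩
    rw [h2] at h1
    exact h1
  right_inv gs := rfl

/-- CNT2 -/
theorem t_CNT2 : S_CNT2 := by
  intro d S _ r n h g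
  split_ifs with hL
  · have h2 := Nat.card_congr (dec2 (d := d) (n := n) S h g hL)
    rw [Nat.card_pi] at h2
    exact h2
  · have h0 : {f ∈ Lip d (n + 1) S | res d (Nat.succ_le_succ h) f = g} = ∅ := by
      ext f
      simp only [Set.mem_setOf_eq, Set.mem_empty_iff_false, iff_false]
      rintro ⟨h1, h2⟩
      apply hL
      intro i
      rw [← h2]
      exact ((lip_succ S f).1 h1).1 i
    rw [h0, Set.ncard_empty]

end Pool.Agent.K3h55.LT2
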