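import Pool.Agent.K3h55.LT.Ana

/-!
# Lipschitz functions on trees: convergence of the energy
-/

set_option autoImplicit false

open Filter Topology

namespace Pool.Agent.K3h55.LT

section

variable {d : ℕ} {c : ℤ → ℝ} (hd : d ≠ 0) (hc : Good c)

include hd hc

lemma summable_UU (n m : ℕ) : Summable fun k => U d c n k ^ d * U d c m k :=
  summable_of_hasFiniteSupport ((U_good hd hc m).fin.subset fun k hk hk0 =>
    hk (by show U d c n k ^ d * U d c m k = 0; rw [hk0, mul_zero]))

lemma defect (n : ℕ) : ∑' k, |U d c (n + 2) k - U d c n k| ^ (d + 1) ≤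
    (d + 1) * (1 - ∑' k, U d c n k ^ d * U d c (n + 2) k) := by
  have g0 := U_good hd hc n
  have g2 := U_good hd hc (n + 2)
  have s0 := (g0.pow (Nat.succ_ne_zero d)).summable
  have s2 := (g2.pow (Nat.succ_ne_zero d)).summable
  have s3 := summable_UU hd hc n (n + 2)
  have h1 : ∀ k, |U d c (n + 2) k - U d c n k| ^ (d + 1) ≤ U d c (n + 2) k ^ (d + 1) +
      d * U d c n k ^ (d + 1) - (d + 1) * (U d c n k ^ d * U d c (n + 2) k) := fun k =>
    young hd (g2.nonneg k) (g0.nonneg k)
  have sR : Summable fun k => U d c (n + 2) k ^ (d + 1) +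
      d * U d c n k ^ (d + 1) - (d + 1) * (U d c n k ^ d * U d c (n + 2) k) :=
    (s2.add (s0.mul_left _)).sub (s3.mul_left _)
  have sL : Summable fun k => |U d c (n + 2) k - U d c n k| ^ (d + 1) :=
    Summable.of_nonneg_of_le (fun k => by positivity) h1 sR
  refine (sL.tsum_le_tsum h1 sR).trans (le_of_eq ?_)
  rw [((s2.add (s0.mul_left _)).tsum_sub (s3.mul_left _)), s2.tsum_add (s0.mul_left _),
    tsum_mul_left, tsum_mul_left, U_sum hd hc, U_sum hd hc]
  ring

lemma corr_le (n : ℕ) : ∑' k, U d c n k ^ d * U d c (n + 2) k ≤ 1 := by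
  have h1 := defect hd hc n
  have h2 : 0 ≤ ∑' k, |U d c (n + 2) k - U d c n k| ^ (d + 1) :=
    tsum_nonneg fun k => by positivity
  have h3 : (0 : ℝ) < (d : ℝ) + 1 := by positivity
  by_contra h4
  rw [not_le] at h4
  nlinarith

lemma be_mono : Monotone (be d c) := by
  refine monotone_nat_of_le_succ fun n => ?_
  rw [be_eq2 hd hc n]
  have h1 := corr_le hd hc n
  have h2 := be_pos hd hc (n + 1)
  nlinarith

lemma be_le (n : ℕ) : be d c n ≤ 3 := by
  rw [be_eq hd hc]
  have g0 := U_good hd hc n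
  have g1 := U_good hd hc (n + 1)
  have h0 := fun k => U_le_one hd hc n k
  have h1 := fun k => U_le_one hd hc (n + 1) k
  have hxy : ∀ x y : ℝ, 0 ≤ x → x ≤ 1 → 0 ≤ y → y ≤ 1 → x ^ d * y ^ d ≤
      (x ^ (d + 1) + y ^ (d + 1)) / 2 := by
    intro x y hx hx1 hy hy1
    have q1 : x ^ d * x ^ d ≤ x ^ (d + 1) := by
      rw [← pow_add]
      exact pow_le_pow_of_le_one hx hx1 (by omega)
    have q2 : y ^ d * y ^ d ≤ y ^ (d + 1) := by
      rw [← pow_add]
      exact pow_le_pow_of_le_one hy hy1 (by omega)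
    nlinarith [sq_nonneg (x ^ d - y ^ d)]
  have key : ∀ k, U d c (n + 1) k ^ d * A3 (fun k => U d c n k ^ d) k ≤
      (3 / 2) * U d c (n + 1) k ^ (d + 1) + (1 / 2) * A3 (fun k => U d c n k ^ (d + 1)) k := by
    intro k
    have p1 := hxy _ _ (g1.nonneg k) (h1 k) (g0.nonneg (k - 1)) (h0 (k - 1))
    have p2 := hxy _ _ (g1.nonneg k) (h1 k) (g0.nonneg k) (h0 k)
    have p3 := hxy _ _ (g1.nonneg k) (h1 k) (g0.nonneg (k + 1)) (h0 (k + 1))
    unfold A3
    linarith
  have s1 := (g1.pow (Nat.succ_ne_zero d)).summable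
  have s2 := (g0.pow (Nat.succ_ne_zero d)).A3.summable
  have sR := (s1.mul_left (3 / 2)).add (s2.mul_left (1 / 2))
  have sL : Summable fun k => U d c (n + 1) k ^ d * A3 (fun k => U d c n k ^ d) k :=
    Summable.of_nonneg_of_le (fun k => mul_nonneg (pow_nonneg (g1.nonneg k) _)
      ((g0.pow hd).A3.nonneg k)) key sR
  refine (sL.tsum_le_tsum key sR).trans (le_of_eq ?_)
  rw [(s1.mul_left (3 / 2)).tsum_add (s2.mul_left (1 / 2)), tsum_mul_left, tsum_mul_left,
    tsum_A3 (g0.pow (Nat.succ_ne_zero d)).fin, U_sum hd hc, U_sum hd hc]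
  norm_num

lemma be_lim : ∃ L : ℝ, 0 < L ∧ Tendsto (be d c) atTop (𝓝 L) := by
  have hb : BddAbove (Set.range (be d c)) := ⟨3, by rintro _ ⟨n, rfl⟩; exact be_le hd hc n⟩
  refine ⟨_, ?_, tendsto_atTop_ciSup (be_mono hd hc) hb⟩
  exact lt_of_lt_of_le (be_pos hd hc 0) (le_ciSup hb 0)

lemma diff_lim (k : ℤ) : Tendsto (fun n => U d c (n + 2) k - U d c n k) atTop (𝓝 0) := by
  obtain ⟨L, hL, hlim⟩ := be_lim hd hc
  have hlim1 : Tendsto (fun n => be d c (n + 1)) atTop (𝓝 L) := (tendsto_add_atTop_iff_nat 1).2 hlim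
  have hq : Tendsto (fun n => be d c n / be d c (n + 1)) atTop (𝓝 1) := by
    have := hlim.div hlim1 hL.ne'
    rwa [div_self hL.ne'] at this
  have hcorr : ∀ n, ∑' k, U d c n k ^ d * U d c (n + 2) k = be d c n / be d c (n + 1) := by
    intro n
    rw [eq_div_iff (be_pos hd hc (n + 1)).ne', mul_comm]
    exact (be_eq2 hd hc n).symm
  have hup : Tendsto (fun n => ((d : ℝ) + 1) * (1 - be d c n / be d c (n + 1))) atTop (𝓝 0) := by
    have := (tendsto_const_nhds (x := (1 : ℝ))).sub hq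
    have h2 := this.const_mul ((d : ℝ) + 1)
    rwa [sub_self, mul_zero] at h2
  have hpow : Tendsto (fun n => |U d c (n + 2) k - U d c n k| ^ (d + 1)) atTop (𝓝 0) := by
    refine squeeze_zero (fun n => by positivity) (fun n => ?_) hup
    have h1 := defect hd hc n
    rw [hcorr n] at h1
    refine le_trans ?_ h1
    have g0 := U_good hd hc n
    have g2 := U_good hd hc (n + 2)
    have sL : Summable fun k => |U d c (n + 2) k - U d c n k| ^ (d + 1) := by
      refine summable_of_hasFiniteSupport ((g0.fin.union g2.fin).subset fun j hj => ?_)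
      by_contra hj0
      rw [Set.mem_union, not_or, Function.mem_support, Function.mem_support, not_not, not_not] at hj0
      apply hj
      show |U d c (n + 2) j - U d c n j| ^ (d + 1) = 0
      rw [hj0.1, hj0.2, sub_zero, abs_zero, zero_pow (Nat.succ_ne_zero d)]
    exact sL.le_tsum k fun j _ => by positivity
  have h3 : Tendsto (fun n => |U d c (n + 2) k - U d c n k|) atTop (𝓝 0) := by
    have h4 := hpow.rpow_const (p := (((d + 1 : ℕ) : ℝ)⁻¹)) (Or.inr (by positivity))
    rw [Real.zero_rpow (by positivity)] at h4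
    refine h4.congr fun n => ?_
    exact Real.pow_rpow_inv_natCast (abs_nonneg _) (Nat.succ_ne_zero d)
  exact (tendsto_zero_iff_abs_tendsto_zero _).2 h3

end

end Pool.Agent.K3h55.LT
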