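import Pool.Agent.K3h55.LT.Tail

/-!
# Lipschitz functions on trees: the local laws
-/

set_option autoImplicit false

open Filter Topology

namespace Pool.Agent.K3h55.LT

/-- The sum of the `d`-th powers. -/
noncomputable def Z (d : ℕ) (c : ℤ → ℝ) (n : ℕ) : ℝ := ∑' k, U d c n k ^ d

lemma diff_prod {ι : Type} (s : Finset ι) (x y : ℕ → ι → ℝ) (hx : ∀ n i, 0 ≤ x n i ∧ x n i ≤ 1)
    (hy : ∀ n i, 0 ≤ y n i ∧ y n i ≤ 1)
    (h : ∀ i, Tendsto (fun n => x n i - y n i) atTop (𝓝 0)) :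
    Tendsto (fun n => ∏ i ∈ s, x n i - ∏ i ∈ s, y n i) atTop (𝓝 0) := by
  classical
  induction s using Finset.induction_on with
  | empty => simp
  | insert a s ha ih =>
    have hb : Tendsto (fun n => |∏ i ∈ s, x n i - ∏ i ∈ s, y n i| + |x n a - y n a|) atTop (𝓝 0) := by
      have h1 := ih.abs.add (h a).abs
      simpa using h1
    refine squeeze_zero_norm (fun n => ?_) hb
    rw [Finset.prod_insert ha, Finset.prod_insert ha, Real.norm_eq_abs]
    have e : x n a * ∏ i ∈ s, x n i - y n a * ∏ i ∈ s, y n i =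
        x n a * (∏ i ∈ s, x n i - ∏ i ∈ s, y n i) + (x n a - y n a) * ∏ i ∈ s, y n i := by ring
    rw [e]
    refine (abs_add_le _ _).trans ?_
    rw [abs_mul, abs_mul, abs_of_nonneg (hx n a).1]
    have p1 : |∏ i ∈ s, y n i| ≤ 1 := by
      rw [abs_of_nonneg (Finset.prod_nonneg fun i _ => (hy n i).1)]
      exact Finset.prod_le_one (fun i _ => (hy n i).1) fun i _ => (hy n i).2
    have p2 := mul_le_mul_of_nonneg_right (hx n a).2 (abs_nonneg (∏ i ∈ s, x n i - ∏ i ∈ s, y n i))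
    have p3 := mul_le_mul_of_nonneg_left p1 (abs_nonneg (x n a - y n a))
    linarith

lemma wt_if {d : ℕ} {q : ℤ → ℝ} {r : ℕ} {g : Lab d (r + 1)}
    (hL : ∀ i, |root r (sub g i) - root (r + 1) g| ≤ 1) :
    wt q (r + 1) g = ∏ i, wt q r (sub g i) := by
  rw [wt]
  exact if_pos hL

lemma wt_nif {d : ℕ} {q : ℤ → ℝ} {r : ℕ} {g : Lab d (r + 1)}
    (hL : ¬ ∀ i, |root r (sub g i) - root (r + 1) g| ≤ 1) : wt q (r + 1) g = 0 := by
  rw [wt]
  exact if_neg hL

lemma wt_mem {d : ℕ} {q : ℤ → ℝ} (hq : ∀ k, 0 ≤ q k ∧ q k ≤ 1) (r : ℕ) (g : Lab d r) :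
    0 ≤ wt q r g ∧ wt q r g ≤ 1 := by
  induction r with
  | zero => exact hq _
  | succ r ih =>
    unfold wt
    split_ifs
    · exact ⟨Finset.prod_nonneg fun i _ => (ih _).1, Finset.prod_le_one (fun i _ => (ih _).1)
        fun i _ => (ih _).2⟩
    · exact ⟨le_rfl, zero_le_one⟩

lemma wt_diff {d : ℕ} (x y : ℕ → ℤ → ℝ) (hx : ∀ n i, 0 ≤ x n i ∧ x n i ≤ 1)
    (hy : ∀ n i, 0 ≤ y n i ∧ y n i ≤ 1)
    (h : ∀ i, Tendsto (fun n => x n i - y n i) atTop (𝓝 0)) (r : ℕ) (g : Lab d r) :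
    Tendsto (fun n => wt (x n) r g - wt (y n) r g) atTop (𝓝 0) := by
  induction r with
  | zero => exact h _
  | succ r ih =>
    by_cases hL : ∀ i, |root r (sub g i) - root (r + 1) g| ≤ 1
    · have := diff_prod Finset.univ (fun n i => wt (x n) r (sub g i))
        (fun n i => wt (y n) r (sub g i)) (fun n i => wt_mem (hx n) r _)
        (fun n i => wt_mem (hy n) r _) (fun i => ih _)
      refine this.congr fun n => ?_
      rw [wt_if hL, wt_if hL]
    · refine (tendsto_const_nhds (x := (0 : ℝ))).congr fun n => ?_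
      rw [wt_nif hL, wt_nif hL, sub_zero]

lemma wt_smul {d : ℕ} (s : ℝ) (q : ℤ → ℝ) (r : ℕ) (g : Lab d r) :
    wt (fun k => s * q k) r g = s ^ d ^ r * wt q r g := by
  induction r with
  | zero =>
    show s * q _ = s ^ d ^ 0 * q _
    rw [pow_zero, pow_one]
  | succ r ih =>
    by_cases hL : ∀ i, |root r (sub g i) - root (r + 1) g| ≤ 1
    · rw [wt_if hL, wt_if hL]
      simp only [ih]
      rw [Finset.prod_mul_distrib, Finset.prod_const, Finset.card_univ, Fintype.card_fin, ← pow_mul,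
        ← pow_succ]
    · rw [wt_nif hL, wt_nif hL, mul_zero]

/-- The product of powers of the normalising factors. -/
noncomputable def BB (d : ℕ) (c : ℤ → ℝ) (n : ℕ) : ℕ → ℝ
  | 0 => 1
  | r + 1 => (BB d c n r * be d c (n + r)) ^ d

section

variable {d : ℕ} {c : ℤ → ℝ}

lemma lam_BB (n r : ℕ) : lam d c (n + r) ^ d = (lam d c n ^ d) ^ d ^ r * BB d c n r := by
  induction r with
  | zero =>
    show _ = (lam d c n ^ d) ^ d ^ 0 * 1
    rw [pow_zero, pow_one, mul_one]
    rfl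
  | succ r ih =>
    show (lam d c (n + r) ^ d * be d c (n + r)) ^ d = _ * (BB d c n r * be d c (n + r)) ^ d
    rw [ih, pow_succ d r, pow_mul, ← mul_pow, mul_assoc]

lemma BB_pos (hd : d ≠ 0) (hc : Good c) (n r : ℕ) : 0 < BB d c n r := by
  induction r with
  | zero => exact one_pos
  | succ r ih => exact pow_pos (mul_pos ih (be_pos hd hc _)) d

lemma BB_lim (hd : d ≠ 0) (hc : Good c) (r : ℕ) :
    ∃ B : ℝ, 0 < B ∧ Tendsto (fun n => BB d c n r) atTop (𝓝 B) := by
  obtain ⟨L, hL, hlim⟩ := be_lim hd hc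
  induction r with
  | zero => exact ⟨1, one_pos, tendsto_const_nhds⟩
  | succ r ih =>
    obtain ⟨B, hB, h⟩ := ih
    refine ⟨(B * L) ^ d, by positivity, ?_⟩
    exact (h.mul ((tendsto_add_atTop_iff_nat r).2 hlim)).pow d

lemma Z_summable (hd : d ≠ 0) (hc : Good c) (n : ℕ) : Summable fun k => U d c n k ^ d :=
  ((U_good hd hc n).pow hd).summable

lemma Z_one_le (hd : d ≠ 0) (hc : Good c) (n : ℕ) : 1 ≤ Z d c n := by
  have g := U_good hd hc n
  rw [← U_sum hd hc n]
  refine (g.pow (Nat.succ_ne_zero d)).summable.tsum_le_tsum (fun k => ?_) (Z_summable hd hc n)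
  exact pow_le_pow_of_le_one (g.nonneg k) (U_le_one hd hc n k) (Nat.le_succ d)

lemma summable_half : Summable fun k : ℤ => ((1 : ℝ) / 2) ^ k.natAbs := by
  refine Summable.of_nat_of_neg ?_ ?_
  · simpa using summable_geometric_two
  · simpa using summable_geometric_two

lemma Z_bdd (hM : S_MON) (hd2 : 2 ≤ d) (hc : Good c) {m : ℤ} (hm : ∀ k, m < |k| → c k = 0) :
    ∃ C : ℝ, ∀ n, Z d c n ≤ C := by
  have hd : d ≠ 0 := by omega
  obtain ⟨N, hN⟩ := bound hM hd2 hc hm
  refine ⟨∑' k : ℤ, 2 ^ N * (1 / 2 : ℝ) ^ k.natAbs, fun n => ?_⟩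
  refine (Z_summable hd hc n).tsum_le_tsum (fun k => ?_) (summable_half.mul_left _)
  refine le_trans ?_ (hN n k)
  calc U d c n k ^ d ≤ U d c n k ^ 1 := pow_le_pow_of_le_one ((U_good hd hc n).nonneg k)
        (U_le_one hd hc n k) (by omega)
    _ = _ := pow_one _

lemma pow_diff (hd : d ≠ 0) (hc : Good c) (k : ℤ) :
    Tendsto (fun n => U d c (n + 2) k ^ d - U d c n k ^ d) atTop (𝓝 0) := by
  have h := diff_prod (Finset.range d) (fun n _ => U d c (n + 2) k) (fun n _ => U d c n k)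
    (fun n _ => ⟨(U_good hd hc _).nonneg k, U_le_one hd hc _ k⟩)
    (fun n _ => ⟨(U_good hd hc _).nonneg k, U_le_one hd hc _ k⟩) (fun _ => diff_lim hd hc k)
  simpa using h

lemma Z_diff (hM : S_MON) (hd2 : 2 ≤ d) (hc : Good c) {m : ℤ} (hm : ∀ k, m < |k| → c k = 0) :
    Tendsto (fun n => Z d c (n + 2) - Z d c n) atTop (𝓝 0) := by
  have hd : d ≠ 0 := by omega
  obtain ⟨N, hN⟩ := bound hM hd2 hc hm
  have hle : ∀ n k, U d c n k ^ d ≤ 2 ^ N * (1 / 2 : ℝ) ^ k.natAbs := by
    intro n k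
    refine le_trans ?_ (hN n k)
    calc U d c n k ^ d ≤ U d c n k ^ 1 := pow_le_pow_of_le_one ((U_good hd hc n).nonneg k)
          (U_le_one hd hc n k) (by omega)
      _ = _ := pow_one _
  have h := tendsto_tsum_of_dominated_convergence (𝓕 := atTop)
    (f := fun (n : ℕ) (k : ℤ) => U d c (n + 2) k ^ d - U d c n k ^ d) (g := fun _ => 0)
    (bound := fun k : ℤ => 2 ^ N * (1 / 2 : ℝ) ^ k.natAbs) (summable_half.mul_left _)
    (fun k => pow_diff hd hc k) (Eventually.of_forall fun n k => by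
      rw [Real.norm_eq_abs, abs_le]
      have a1 := hle (n + 2) k
      have a2 := hle n k
      have a3 := pow_nonneg ((U_good hd hc (n + 2)).nonneg k) d
      have a4 := pow_nonneg ((U_good hd hc n).nonneg k) d
      constructor <;> linarith)
  rw [tsum_zero] at h
  refine h.congr fun n => ?_
  exact (Z_summable hd hc (n + 2)).tsum_sub (Z_summable hd hc n)

/-- The local laws. -/
theorem law_lim (hM : S_MON) (hd2 : 2 ≤ d) (hc : Good c) {m : ℤ} (hm : ∀ k, m < |k| → c k = 0)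
    (r : ℕ) (g : Lab d r) : Tendsto (fun n =>
      wt (fun k => U d c (n + 2) k ^ d) r g / (BB d c (n + 2) r * Z d c (n + 2 + r)) -
      wt (fun k => U d c n k ^ d) r g / (BB d c n r * Z d c (n + r))) atTop (𝓝 0) := by
  have hd : d ≠ 0 := by omega
  obtain ⟨B, hB, hBl⟩ := BB_lim hd hc r
  have hBl2 : Tendsto (fun n => BB d c (n + 2) r) atTop (𝓝 B) := (tendsto_add_atTop_iff_nat 2).2 hBl
  obtain ⟨C, hC⟩ := Z_bdd hM hd2 hc hm
  have hq : ∀ n k, 0 ≤ U d c n k ^ d ∧ U d c n k ^ d ≤ 1 := fun n k =>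
    ⟨pow_nonneg ((U_good hd hc n).nonneg k) d,
      pow_le_one₀ ((U_good hd hc n).nonneg k) (U_le_one hd hc n k)⟩
  have hw := wt_diff (fun n k => U d c (n + 2) k ^ d) (fun n k => U d c n k ^ d)
    (fun n k => hq _ k) (fun n k => hq _ k) (fun k => pow_diff hd hc k) r g
  have hZ : Tendsto (fun n => Z d c (n + 2 + r) - Z d c (n + r)) atTop (𝓝 0) := by
    have := (tendsto_add_atTop_iff_nat r).2 (Z_diff hM hd2 hc hm)
    refine this.congr fun n => ?_
    rw [show n + r + 2 = n + 2 + r by ring]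
  -- denominators
  have hden : Tendsto (fun n => BB d c (n + 2) r * Z d c (n + 2 + r) - BB d c n r * Z d c (n + r))
      atTop (𝓝 0) := by
    have h1 : Tendsto (fun n => BB d c (n + 2) r - BB d c n r) atTop (𝓝 0) := by
      simpa using hBl2.sub hBl
    have h2 : Tendsto (fun n => (BB d c (n + 2) r - BB d c n r) * Z d c (n + 2 + r)) atTop (𝓝 0) := by
      refine squeeze_zero_norm (a := fun n => |BB d c (n + 2) r - BB d c n r| * C) (fun n => ?_) ?_
      · rw [norm_mul, Real.norm_eq_abs, Real.norm_eq_abs]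
        refine mul_le_mul_of_nonneg_left ?_ (abs_nonneg _)
        rw [abs_of_nonneg (by linarith [Z_one_le hd hc (n + 2 + r)])]
        exact hC _
      · have := h1.abs.mul_const C
        simpa using this
    have h3 := h2.add (hBl.mul hZ)
    rw [mul_zero, add_zero] at h3
    refine h3.congr fun n => ?_
    ring
  have hlow : ∀ᶠ n in atTop, B / 2 ≤ BB d c n r := hBl.eventually (eventually_ge_nhds (by linarith))
  have hlow2 : ∀ᶠ n in atTop, B / 2 ≤ BB d c (n + 2) r := hBl2.eventually (eventually_ge_nhds (by linarith))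
  have hbd : Tendsto (fun n => (|wt (fun k => U d c (n + 2) k ^ d) r g -
      wt (fun k => U d c n k ^ d) r g|) / (B / 2) +
      |BB d c (n + 2) r * Z d c (n + 2 + r) - BB d c n r * Z d c (n + r)| / (B / 2) ^ 2) atTop
      (𝓝 0) := by
    have := (hw.abs.div_const (B / 2)).add (hden.abs.div_const ((B / 2) ^ 2))
    simpa using this
  refine squeeze_zero_norm' ?_ hbd
  filter_upwards [hlow, hlow2] with n h1 h2
  have z1 := Z_one_le hd hc (n + r)
  have z2 := Z_one_le hd hc (n + 2 + r)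
  have w1 := wt_mem (fun k => hq n k) r g
  have w2 := wt_mem (fun k => hq (n + 2) k) r g
  generalize wt (fun k => U d c (n + 2) k ^ d) r g = x' at w2 ⊢
  generalize wt (fun k => U d c n k ^ d) r g = x at w1 ⊢
  obtain ⟨y, hy⟩ : ∃ y, y = BB d c n r * Z d c (n + r) := ⟨_, rfl⟩
  obtain ⟨y', hy'⟩ : ∃ y, y = BB d c (n + 2) r * Z d c (n + 2 + r) := ⟨_, rfl⟩
  rw [← hy, ← hy']
  have y1 : B / 2 ≤ y := by
    rw [hy]
    nlinarith
  have y2 : B / 2 ≤ y' := by
    rw [hy']
    nlinarith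
  have hB2 : 0 < B / 2 := by linarith
  have yp : 0 < y := by linarith
  have yp' : 0 < y' := by linarith
  rw [Real.norm_eq_abs]
  have e : x' / y' - x / y = (x' - x) / y' - x * (y' - y) / (y * y') := by
    field_simp
    ring
  rw [e]
  refine (abs_sub _ _).trans (add_le_add ?_ ?_)
  · rw [abs_div, abs_of_pos yp']
    exact div_le_div_of_nonneg_left (abs_nonneg _) hB2 y2
  · rw [abs_div, abs_mul, abs_of_nonneg w1.1, abs_of_pos (mul_pos yp yp')]
    refine div_le_div₀ (abs_nonneg _) ?_ (by positivity) ?_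
    · have := mul_le_mul_of_nonneg_right w1.2 (abs_nonneg (y' - y))
      linarith
    · rw [sq]
      exact mul_le_mul y1 y2 hB2.le yp.le

end

end Pool.Agent.K3h55.LT
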