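import Mathlib

/-!
# Lipschitz functions on trees: definitions and statements of the parts
-/

set_option autoImplicit false

open Filter Topology

namespace Pool.Agent.K3h55.LT

/-- The functions on the `d`-ary tree of depth `n` with integer values: the value at the root and
the `d` functions on the subtrees of depth `n - 1` over the children of the root. -/
def Lab (d : ℕ) : ℕ → Type
  | 0 => ℤ
  | n + 1 => ℤ × (Fin d → Lab d n)

/-- The value at the root. -/
def root {d : ℕ} : (n : ℕ) → Lab d n → ℤ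
  | 0, t => t
  | n + 1, t => (show ℤ × (Fin d → Lab d n) from t).1

/-- The function on the subtree over the child `i` of the root. -/
def sub {d n : ℕ} (t : Lab d (n + 1)) (i : Fin d) : Lab d n :=
  (show ℤ × (Fin d → Lab d n) from t).2 i

/-- `|f (u) - f (v)| ≤ 1` for all edges `u v`. -/
def Lip {d : ℕ} : (n : ℕ) → Lab d n → Prop
  | 0, _ => True
  | n + 1, t => ∀ i, |root n (sub t i) - root (n + 1) t| ≤ 1 ∧ Lip n (sub t i)

/-- The values at the leaves, the vertices at distance `n` from the root, are in `S`. -/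
def LeavesIn {d : ℕ} (S : Finset ℤ) : (n : ℕ) → Lab d n → Prop
  | 0, t => root 0 t ∈ S
  | n + 1, t => ∀ i, LeavesIn S n (sub t i)

/-- The restriction of a function on the tree of depth `n + r` to the tree of depth `r`. -/
def cut {d : ℕ} (n : ℕ) : (r : ℕ) → Lab d (n + r) → Lab d r
  | 0, t => root n t
  | r + 1, t => (root (n + r + 1) t, fun i => cut n r (sub (n := n + r) t i))

/-- The Lipschitz functions on the tree of depth `n` with values in `S` at the leaves. -/
def Adm (d : ℕ) (S : Finset ℤ) (n : ℕ) : Set (Lab d n) := {t | Lip n t ∧ LeavesIn S n t}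

/-- The number of the functions with the value `k` at the root. -/
noncomputable def cnt (d : ℕ) (S : Finset ℤ) (n : ℕ) (k : ℤ) : ℕ :=
  {t : Lab d n | t ∈ Adm d S n ∧ root n t = k}.ncard

/-- The product of the `q (g (v))` over the leaves `v` if `g` is Lipschitz, and `0` otherwise. -/
noncomputable def wt {d : ℕ} (q : ℤ → ℝ) : (r : ℕ) → Lab d r → ℝ
  | 0, g => q (root 0 g)
  | r + 1, g => open Classical in
      if ∀ i, |root r (sub g i) - root (r + 1) g| ≤ 1 then ∏ i, wt q r (sub g i) else 0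

/-- CNT -/
def S_CNT : Prop :=
  ∀ (d : ℕ) (S : Finset ℤ), (∀ k, cnt d S 0 k = if k ∈ S then 1 else 0) ∧
    ∀ n k, cnt d S (n + 1) k = (cnt d S n (k - 1) + cnt d S n k + cnt d S n (k + 1)) ^ d

/-- CUT -/
def S_CUT : Prop :=
  ∀ (d : ℕ) (S : Finset ℤ) (n r : ℕ) (g : Lab d r),
    (({t : Lab d (n + r) | t ∈ Adm d S (n + r) ∧ cut n r t = g}.ncard : ℕ) : ℝ) =
      wt (fun k => (cnt d S n k : ℝ)) r g

/-- TOT -/
def S_TOT : Prop :=
  ∀ (d : ℕ), 1 ≤ d → ∀ (S : Finset ℤ) (n : ℕ), (Function.support fun k => cnt d S n k).Finite ∧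
    ∑' k : ℤ, (cnt d S n k : ℝ) = ((Adm d S n).ncard : ℝ)

/-- MON -/
def S_MON : Prop :=
  ∀ (d : ℕ) (m : ℤ) (c : ℕ → ℤ → ℝ), (∀ k, 0 ≤ c 0 k) → (∀ k, m < k → c 0 k = 0) →
    (∀ n k, c (n + 1) k = (c n (k - 1) + c n k + c n (k + 1)) ^ d) →
    ∀ n k, m ≤ k → c n (k + 1) ≤ c n k

end Pool.Agent.K3h55.LT
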