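import Pool.Agent.K3h55.LT.Lim

/-!
# Lipschitz functions on trees: uniform tails
-/

set_option autoImplicit false

open Filter Topology

namespace Pool.Agent.K3h55.LT

/-- The recursion for the numbers of functions. -/
noncomputable def cs (d : ℕ) (c : ℤ → ℝ) : ℕ → ℤ → ℝ
  | 0 => c
  | n + 1 => fun k => (cs d c n (k - 1) + cs d c n k + cs d c n (k + 1)) ^ d

/-- The factor. -/
noncomputable def lam (d : ℕ) (c : ℤ → ℝ) : ℕ → ℝ
  | 0 => nrm d (A3 c)
  | n + 1 => lam d c n ^ d * be d c n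

section

variable {d : ℕ} {c : ℤ → ℝ} (hd : d ≠ 0) (hc : Good c)

include hd hc

lemma lam_pos (n : ℕ) : 0 < lam d c n := by
  induction n with
  | zero => exact nrm_pos hc.A3
  | succ n ih => exact mul_pos (pow_pos ih d) (be_pos hd hc n)

lemma A3_cs (n : ℕ) (k : ℤ) : A3 (cs d c n) k = lam d c n * U d c n k := by
  induction n generalizing k with
  | zero =>
    show A3 c k = nrm d (A3 c) * (A3 c k / nrm d (A3 c))
    rw [mul_div_cancel₀ _ (nrm_pos hc.A3).ne']
  | succ n ih =>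
    have h1 : ∀ j, cs d c (n + 1) j = lam d c n ^ d * U d c n j ^ d := by
      intro j
      show (A3 (cs d c n) j) ^ d = _
      rw [ih, mul_pow]
    have h2 : A3 (cs d c (n + 1)) k = lam d c n ^ d * A3 (fun j => U d c n j ^ d) k := by
      unfold A3
      rw [h1, h1, h1]
      ring
    rw [h2, U_rec hd hc]
    show _ = lam d c n ^ d * be d c n * U d c (n + 1) k
    ring

lemma cs_succ (n : ℕ) (k : ℤ) : cs d c (n + 1) k = lam d c n ^ d * U d c n k ^ d := by
  show (A3 (cs d c n) k) ^ d = _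
  rw [A3_cs hd hc, mul_pow]

end

section

variable {d : ℕ} {c : ℤ → ℝ}

lemma U_mono (hM : S_MON) (hd : d ≠ 0) (hc : Good c) {m : ℤ} (hm : ∀ k, m < k → c k = 0) (n : ℕ)
    {k : ℤ} (hk : m + 1 ≤ k) : U d c n (k + 1) ≤ U d c n k := by
  have h1 := hM d m (cs d c) hc.nonneg hm (fun _ _ => rfl) n
  have e1 := A3_cs hd hc n k
  have e2 := A3_cs hd hc n (k + 1)
  have h2 : A3 (cs d c n) (k + 1) ≤ A3 (cs d c n) k := by
    unfold A3
    have a1 := h1 (k - 1) (by linarith)
    have a2 := h1 k (by linarith)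
    have a3 := h1 (k + 1) (by linarith)
    rw [sub_add_cancel] at a1
    rw [add_sub_cancel_right]
    linarith
  rw [e1, e2] at h2
  exact le_of_mul_le_mul_left h2 (lam_pos hd hc n)

lemma U_anti (hM : S_MON) (hd : d ≠ 0) (hc : Good c) {m : ℤ} (hm : ∀ k, m < k → c k = 0) (n : ℕ)
    (i : ℕ) {k : ℤ} (hk : m + 1 ≤ k) : U d c n (k + i) ≤ U d c n k := by
  induction i with
  | zero => simp
  | succ i ih =>
    refine le_trans ?_ ih
    have := U_mono hM hd hc hm n (k := k + i) (by linarith [(Int.natCast_nonneg i)])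
    rwa [add_assoc] at this

lemma U_small (hM : S_MON) (hd : d ≠ 0) (hc : Good c) {m : ℤ} (hm : ∀ k, m < k → c k = 0) {δ : ℝ}
    (hδ : 0 < δ) : ∃ J : ℕ, ∀ (n j : ℕ), J ≤ j → U d c n (m + 1 + j) ≤ δ := by
  obtain ⟨J, hJ⟩ := exists_nat_one_div_lt (pow_pos hδ (d + 1))
  refine ⟨J, fun n j hj => ?_⟩
  by_contra hlt
  rw [not_le] at hlt
  have g := U_good hd hc n
  have h1 : δ ^ (d + 1) < U d c n (m + 1 + j) ^ (d + 1) :=
    pow_lt_pow_left₀ hlt hδ.le (Nat.succ_ne_zero d)
  have h2 : (Finset.Icc (m + 1) (m + 1 + (j : ℤ))).card • (U d c n (m + 1 + j) ^ (d + 1)) ≤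
      ∑ k ∈ Finset.Icc (m + 1) (m + 1 + (j : ℤ)), U d c n k ^ (d + 1) := by
    refine Finset.card_nsmul_le_sum _ _ _ fun k hk => ?_
    rw [Finset.mem_Icc] at hk
    refine pow_le_pow_left₀ (g.nonneg _) ?_ _
    obtain ⟨i, hi⟩ : ∃ i : ℕ, m + 1 + (j : ℤ) = k + i := ⟨(m + 1 + (j : ℤ) - k).toNat, by
      rw [Int.toNat_of_nonneg (by linarith [hk.2])]
      ring⟩
    rw [hi]
    exact U_anti hM hd hc hm n i hk.1
  have h3 : ∑ k ∈ Finset.Icc (m + 1) (m + 1 + (j : ℤ)), U d c n k ^ (d + 1) ≤ 1 := by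
    rw [← U_sum hd hc n]
    exact (g.pow (Nat.succ_ne_zero d)).summable.sum_le_tsum _ fun k _ => pow_nonneg (g.nonneg k) _
  have h4 : (Finset.Icc (m + 1) (m + 1 + (j : ℤ))).card = j + 1 := by
    rw [Int.card_Icc]
    omega
  rw [h4, nsmul_eq_mul] at h2
  push_cast at h2
  have h5 : (1 : ℝ) / (J + 1) * ((j : ℝ) + 1) ≥ 1 := by
    have : (J : ℝ) ≤ j := by exact_mod_cast hj
    rw [ge_iff_le, one_div, ← div_eq_inv_mul, le_div_iff₀ (by positivity)]
    linarith
  have h6 : (0 : ℝ) < (j : ℝ) + 1 := by positivity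
  nlinarith

lemma right_tail (hM : S_MON) (hd2 : 2 ≤ d) (hc : Good c) {m : ℤ} (hm : ∀ k, m < k → c k = 0) :
    ∃ K : ℤ, ∀ (n j : ℕ), U d c n (K + j) ≤ (1 / 2) ^ j := by
  have hd : d ≠ 0 := by omega
  have hb := be_pos hd hc 0
  obtain ⟨J, hJ⟩ := U_small hM hd hc hm (δ := min 1 (be d c 0 / 6)) (lt_min one_pos (by positivity))
  refine ⟨m + 2 + J, fun n => ?_⟩
  have h0 : ∀ j : ℕ, U d c 0 (m + 2 + J + j) = 0 := by
    intro j
    show A3 c (m + 2 + J + j) / _ = 0
    have i1 := Int.natCast_nonneg J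
    have i2 := Int.natCast_nonneg j
    have : A3 c (m + 2 + J + j) = 0 := by
      unfold A3
      rw [hm _ (by linarith), hm _ (by linarith), hm _ (by linarith)]
      ring
    rw [this, zero_div]
  induction n with
  | zero =>
    intro j
    rw [h0]
    positivity
  | succ n ih =>
    intro j
    cases j with
    | zero =>
      rw [pow_zero]
      exact U_le_one hd hc _ _
    | succ j =>
      have i1 := Int.natCast_nonneg J
      have i2 := Int.natCast_nonneg j
      obtain ⟨k, hk⟩ : ∃ k : ℤ, k = m + 2 + J + j := ⟨_, rfl⟩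
      have ek : m + 2 + (J : ℤ) + ((j + 1 : ℕ) : ℤ) = k + 1 := by
        rw [hk]
        push_cast
        ring
      have hs : U d c n k ≤ min 1 (be d c 0 / 6) := by
        have := hJ n (J + j + 1) (by omega)
        have e : m + 1 + ((J + j + 1 : ℕ) : ℤ) = k := by
          rw [hk]
          push_cast
          ring
        rwa [e] at this
      have hs1 : U d c n k ≤ 1 := hs.trans (min_le_left _ _)
      have hs2 : U d c n k ≤ be d c 0 / 6 := hs.trans (min_le_right _ _)
      have g := U_good hd hc n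
      have hU0 := g.nonneg k
      have m1 := U_mono hM hd hc hm n (k := k) (by linarith)
      have m2 := U_mono hM hd hc hm n (k := k + 1) (by linarith)
      have hp : U d c n k ^ d ≤ be d c 0 / 6 * U d c n k := by
        calc U d c n k ^ d ≤ U d c n k ^ 2 := pow_le_pow_of_le_one hU0 hs1 hd2
          _ = U d c n k * U d c n k := sq _
          _ ≤ be d c 0 / 6 * U d c n k := mul_le_mul_of_nonneg_right hs2 hU0
      have hA : A3 (fun j => U d c n j ^ d) (k + 1) ≤ 3 * U d c n k ^ d := by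
        have p1 : U d c n (k + 1) ^ d ≤ U d c n k ^ d := pow_le_pow_left₀ (g.nonneg _) m1 d
        have p2 : U d c n (k + 1 + 1) ^ d ≤ U d c n k ^ d :=
          pow_le_pow_left₀ (g.nonneg _) (m2.trans m1) d
        unfold A3
        rw [add_sub_cancel_right]
        linarith
      have hbe := be_mono hd hc (Nat.zero_le n)
      have hrec := U_rec hd hc n (k + 1)
      have hih : U d c n k ≤ (1 / 2) ^ j := by
        have := ih j
        rwa [← hk] at this
      rw [ek, pow_succ]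
      have hU1 := (U_good hd hc (n + 1)).nonneg (k + 1)
      have h1 : be d c 0 * U d c (n + 1) (k + 1) ≤ be d c 0 / 2 * U d c n k := by
        calc be d c 0 * U d c (n + 1) (k + 1) ≤ be d c n * U d c (n + 1) (k + 1) :=
              mul_le_mul_of_nonneg_right hbe hU1
          _ = A3 (fun j => U d c n j ^ d) (k + 1) := hrec.symm
          _ ≤ 3 * U d c n k ^ d := hA
          _ ≤ 3 * (be d c 0 / 6 * U d c n k) := by linarith
          _ = be d c 0 / 2 * U d c n k := by ring
      have h2 : U d c (n + 1) (k + 1) ≤ 1 / 2 * U d c n k := by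
        refine le_of_mul_le_mul_left ?_ hb
        calc _ ≤ be d c 0 / 2 * U d c n k := h1
          _ = _ := by ring
      linarith

/-! ### reflection -/

lemma A3_neg (v : ℤ → ℝ) (k : ℤ) : A3 (fun j => v (-j)) k = A3 v (-k) := by
  show v (-(k - 1)) + v (-k) + v (-(k + 1)) = v (-k - 1) + v (-k) + v (-k + 1)
  rw [show -(k - 1) = -k + 1 by ring, show -(k + 1) = -k - 1 by ring]
  ring

lemma nrm_neg (v : ℤ → ℝ) : nrm d (fun j => v (-j)) = nrm d v := by
  unfold nrm
  congr 1
  exact (Equiv.neg ℤ).tsum_eq fun k => v k ^ (d + 1)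

lemma nz_neg (v : ℤ → ℝ) : nz d (fun j => v (-j)) = fun k => nz d v (-k) := by
  funext k
  show v (-k) / nrm d (fun j => v (-j)) = v (-k) / nrm d v
  rw [nrm_neg]

lemma U_neg (n : ℕ) : U d (fun j => c (-j)) n = fun k => U d c n (-k) := by
  induction n with
  | zero =>
    show nz d (A3 fun j => c (-j)) = fun k => nz d (A3 c) (-k)
    rw [← nz_neg]
    congr 1
    funext k
    exact A3_neg c k
  | succ n ih =>
    show nz d (A3 fun k => U d (fun j => c (-j)) n k ^ d) = fun k => nz d (A3 fun k => U d c n k ^ d) (-k)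
    rw [← nz_neg, ih]
    congr 1
    funext k
    exact A3_neg (fun k => U d c n k ^ d) k

lemma Good.neg (hc : Good c) : Good fun k => c (-k) := by
  refine ⟨fun k => hc.nonneg _, ?_, ?_⟩
  · refine (hc.fin.image fun k => -k).subset ?_
    intro k hk
    exact ⟨-k, hk, neg_neg k⟩
  · obtain ⟨k, hk⟩ := hc.pos
    exact ⟨-k, by rwa [neg_neg]⟩

theorem bound (hM : S_MON) (hd2 : 2 ≤ d) (hc : Good c) {m : ℤ} (hm : ∀ k, m < |k| → c k = 0) :
    ∃ N : ℕ, ∀ (n : ℕ) (k : ℤ), U d c n k ≤ 2 ^ N * (1 / 2) ^ k.natAbs := by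
  have hd : d ≠ 0 := by omega
  obtain ⟨K₁, h1⟩ := right_tail hM hd2 hc (m := m) fun k hk => hm k (lt_of_lt_of_le hk (le_abs_self k))
  obtain ⟨K₂, h2⟩ := right_tail hM hd2 hc.neg (m := m) fun k hk =>
    hm (-k) (by rw [abs_neg]; exact lt_of_lt_of_le hk (le_abs_self k))
  refine ⟨K₁.natAbs + K₂.natAbs, fun n k => ?_⟩
  set N := K₁.natAbs + K₂.natAbs with hN
  have hstep : ∀ j : ℕ, k.natAbs ≤ N + j → ((1 : ℝ) / 2) ^ j ≤ 2 ^ N * (1 / 2) ^ k.natAbs := by
    intro j hj
    have e1 : ((1 : ℝ) / 2) ^ j = 2 ^ N * (1 / 2) ^ (N + j) := by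
      have e2 : ((1 : ℝ) / 2) ^ j = (2 * (1 / 2)) ^ N * (1 / 2) ^ j := by norm_num
      rw [e2, mul_pow, mul_assoc, ← pow_add (1 / 2 : ℝ) N j]
    rw [e1]
    exact mul_le_mul_of_nonneg_left (pow_le_pow_of_le_one (by norm_num) (by norm_num) hj)
      (by positivity)
  by_cases hk : k.natAbs ≤ N
  · have := hstep 0 (by omega)
    rw [pow_zero] at this
    exact (U_le_one hd hc n k).trans this
  · rcases le_total 0 k with h0 | h0
    · obtain ⟨j, hj⟩ : ∃ j : ℕ, k = K₁ + j := ⟨(k - K₁).toNat, by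
        rw [Int.toNat_of_nonneg (by omega)]
        ring⟩
      have := h1 n j
      rw [← hj] at this
      exact this.trans (hstep j (by omega))
    · obtain ⟨j, hj⟩ : ∃ j : ℕ, -k = K₂ + j := ⟨(-k - K₂).toNat, by
        rw [Int.toNat_of_nonneg (by omega)]
        ring⟩
      have := h2 n j
      rw [U_neg, ← hj] at this
      simp only [neg_neg] at this
      exact this.trans (hstep j (by omega))

end

end Pool.Agent.K3h55.LT
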